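import Mathlib

/-!
# Local Galois data in Weil–Deligne form and products with a Tate curve
-/

namespace Pool.Agent.Q60.LI

open Polynomial Module

/-! ## Frobenius polynomials of stable subspaces -/

section pol

variable {K : Type} [Field K] {V W : Type} [AddCommGroup V] [Module K V] [FiniteDimensional K V]
  [AddCommGroup W] [Module K W] [FiniteDimensional K W]

/-- `det (1 - Φ T ∣ S)` for a `Φ`-stable subspace `S` -/
noncomputable def pol (Φ : Module.End K V) (S : Submodule K V) : K[X] := by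
  classical exact if h : ∀ v ∈ S, Φ v ∈ S then (LinearMap.charpoly (Φ.restrict h)).reverse else 0

theorem pol_of {Φ : Module.End K V} {S : Submodule K V} (h : ∀ v ∈ S, Φ v ∈ S) :
    pol Φ S = (LinearMap.charpoly (Φ.restrict h)).reverse := by
  rw [pol, dif_pos h]

theorem pol_equiv {Φ : Module.End K V} {S : Submodule K V} {Ψ : Module.End K W} {T : Submodule K W}
    (e : V ≃ₗ[K] W) (he : ∀ v, e (Φ v) = Ψ (e v)) (hS : ∀ v, v ∈ S ↔ e v ∈ T) :
    pol Φ S = pol Ψ T := by
  have key : (∀ v ∈ S, Φ v ∈ S) ↔ (∀ w ∈ T, Ψ w ∈ T) := by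
    constructor
    · intro h w hw
      obtain ⟨v, rfl⟩ := e.surjective w
      rw [← he, ← hS]
      exact h v ((hS v).2 hw)
    · intro h v hv
      rw [hS, he]
      exact h _ ((hS v).1 hv)
  by_cases h : ∀ v ∈ S, Φ v ∈ S
  · have h' := key.1 h
    rw [pol_of h, pol_of h']
    congr 1
    let f : S ≃ₗ[K] T :=
      { toFun := fun v => ⟨e v.1, (hS _).1 v.2⟩
        map_add' := fun a b => by ext; simp
        map_smul' := fun a b => by ext; simp
        invFun := fun w => ⟨e.symm w.1, by rw [hS, e.apply_symm_apply]; exact w.2⟩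
        left_inv := fun a => by ext; simp
        right_inv := fun a => by ext; simp }
    rw [← LinearEquiv.charpoly_conj f (Φ.restrict h)]
    congr 1
    ext w
    simp only [LinearEquiv.conj_apply, LinearMap.comp_apply, LinearMap.restrict_apply]
    show e (Φ (e.symm w.1)) = Ψ w.1
    rw [he, e.apply_symm_apply]
  · have h' : ¬ (∀ w ∈ T, Ψ w ∈ T) := fun h2 => h (key.2 h2)
    rw [pol, pol, dif_neg h, dif_neg h']

theorem pol_prod {Φ : Module.End K V} {S : Submodule K V} {Ψ : Module.End K W} {T : Submodule K W}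
    (h : ∀ v ∈ S, Φ v ∈ S) (h' : ∀ v ∈ T, Ψ v ∈ T) :
    pol (Φ.prodMap Ψ) (S.prod T) = pol Φ S * pol Ψ T := by
  have h2 : ∀ v ∈ S.prod T, (Φ.prodMap Ψ) v ∈ S.prod T := fun v hv => ⟨h _ hv.1, h' _ hv.2⟩
  rw [pol_of h, pol_of h', pol_of h2, ← reverse_mul_of_domain, ← LinearMap.charpoly_prodMap]
  congr 1
  let f : (S.prod T) ≃ₗ[K] S × T :=
    { toFun := fun v => (⟨v.1.1, v.2.1⟩, ⟨v.1.2, v.2.2⟩)
      map_add' := fun a b => by ext <;> simp
      map_smul' := fun a b => by ext <;> simp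
      invFun := fun w => ⟨(w.1.1, w.2.1), ⟨w.1.2, w.2.2⟩⟩
      left_inv := fun a => by ext <;> simp
      right_inv := fun a => by ext <;> simp }
  rw [← LinearEquiv.charpoly_conj f]
  congr 1

theorem pol_smul {Φ : Module.End K V} {S : Submodule K V} (h : ∀ v ∈ S, Φ v ∈ S) (c : K) :
    pol (c • Φ) S = (pol Φ S).comp (C c * X) := by
  have h2 : ∀ v ∈ S, (c • Φ) v ∈ S := fun v hv => S.smul_mem _ (h v hv)
  rw [pol_of h, pol_of h2]
  let b := Module.Free.chooseBasis K S
  rw [← LinearMap.charpoly_toMatrix ((c • Φ).restrict h2) b,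
    ← LinearMap.charpoly_toMatrix (Φ.restrict h) b, Matrix.reverse_charpoly,
    Matrix.reverse_charpoly, Matrix.charpolyRev, Matrix.charpolyRev]
  have e1 : (c • Φ).restrict h2 = c • Φ.restrict h := by
    ext v
    simp
  rw [e1, map_smul]
  generalize LinearMap.toMatrix b b (Φ.restrict h) = M
  have : ∀ p : K[X], p.comp (C c * X) = compRingHom (C c * X) p := fun p => rfl
  rw [this, RingHom.map_det]
  congr 1
  ext1 i j
  simp only [Matrix.sub_apply, Matrix.smul_apply, Matrix.map_apply, smul_eq_mul,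
    RingHom.mapMatrix_apply, map_sub, map_mul, coe_compRingHom_apply, X_comp, C_comp,
    Matrix.one_apply]
  split_ifs <;> simp <;> ring

theorem pol_bot {Φ : Module.End K V} : pol Φ ⊥ = 1 := by
  have h : ∀ v ∈ (⊥ : Submodule K V), Φ v ∈ (⊥ : Submodule K V) := by
    intro v hv
    rw [Submodule.mem_bot] at hv ⊢
    rw [hv, map_zero]
  rw [pol_of h]
  have : LinearMap.charpoly (Φ.restrict h) = 1 := by
    have h1 := LinearMap.charpoly_monic (Φ.restrict h)
    have h2 := LinearMap.charpoly_natDegree (Φ.restrict h)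
    rw [finrank_bot] at h2
    exact h1.natDegree_eq_zero.1 h2
  rw [this, ← C_1, reverse_C]

theorem pol_coeff_zero {Φ : Module.End K V} {S : Submodule K V} (h : ∀ v ∈ S, Φ v ∈ S) :
    (pol Φ S).coeff 0 = 1 := by
  rw [pol_of h, coeff_zero_reverse, (LinearMap.charpoly_monic _).leadingCoeff]

end pol

/-- the value of an endomorphism at a vector -/
def ap {K : Type} [Field K] {V : Type} [AddCommGroup V] [Module K V] (f : Module.End K V) (v : V) :
    V := f v

/-- A finite dimensional representation of the local Galois group in the form given by Grothendieck's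
monodromy theorem: `ρ` is an action of the inertia group `Γ` with finite image, `N` the logarithm of
the monodromy, `Φ` a (geometric) Frobenius; `q` is the order of the residue field and `σ g` is the
conjugate `Φ⁻¹ g Φ` of an element `g` of inertia. -/
structure Loc (K : Type) [Field K] {Γ : Type} [Group Γ] (σ : Γ → Γ) (q : ℕ) where
  /-- the space -/
  V : Type
  [acg : AddCommGroup V]
  [mod : Module K V]
  [fin : FiniteDimensional K V]
  /-- the logarithm of the monodromy -/
  N : Module.End K V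
  /-- the geometric Frobenius -/
  Φ : Module.End K V
  /-- the action of the inertia group through a finite quotient -/
  ρ : Γ → Module.End K V
  nil : ∃ n : ℕ, ∀ v, ap (N ^ n) v = 0
  comm : ∀ v, ap N (ap Φ v) = (q : K) • ap Φ (ap N v)
  one : ∀ v, ap (ρ 1) v = v
  mul : ∀ g h v, ap (ρ (g * h)) v = ap (ρ g) (ap (ρ h) v)
  commρ : ∀ g v, ap N (ap (ρ g) v) = ap (ρ g) (ap N v)
  norm : ∀ g v, ap (ρ g) (ap Φ v) = ap Φ (ap (ρ (σ g)) v)
  finite : (Set.range ρ).Finite

attribute [instance] Loc.acg Loc.mod Loc.fin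

variable {K : Type} [Field K] {Γ : Type} [Group Γ] {σ : Γ → Γ} {q : ℕ}

namespace Loc

theorem nil' (A : Loc K σ q) : IsNilpotent A.N := by
  obtain ⟨n, hn⟩ := A.nil
  exact ⟨n, LinearMap.ext hn⟩

theorem comm' (A : Loc K σ q) (v : A.V) : A.N (A.Φ v) = (q : K) • A.Φ (A.N v) := A.comm v

theorem one' (A : Loc K σ q) (v : A.V) : A.ρ 1 v = v := A.one v

theorem mul' (A : Loc K σ q) (g h : Γ) (v : A.V) : A.ρ (g * h) v = A.ρ g (A.ρ h v) := A.mul g h v

theorem commρ' (A : Loc K σ q) (g : Γ) (v : A.V) : A.N (A.ρ g v) = A.ρ g (A.N v) := A.commρ g v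

theorem norm' (A : Loc K σ q) (g : Γ) (v : A.V) : A.ρ g (A.Φ v) = A.Φ (A.ρ (σ g) v) := A.norm g v

/-- `exp (c N) v` -/
noncomputable def ex (A : Loc K σ q) (c : K) (v : A.V) : A.V :=
  ∑ i ∈ Finset.range (finrank K A.V + 1), (c ^ i / (i.factorial : K)) • ap (A.N ^ i) v

/-- the action of an element `g` of inertia: `ρ g ∘ exp (t g N)` -/
noncomputable def act (A : Loc K σ q) (t : Γ → K) (g : Γ) (v : A.V) : A.V := ap (A.ρ g) (A.ex (t g) v)

/-- `D 0` consists of `0` and `D (r + 1)` of the `v` with `g v - v ∈ D r` for all `g` in the inertia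
group.  So `D 1` is the space of inertia invariants, and `D r` the space of vectors killed by all
products `(g₁ - 1) ⋯ (g_r - 1)`. -/
def InD (A : Loc K σ q) (t : Γ → K) : ℕ → A.V → Prop
  | 0 => fun v => v = 0
  | r + 1 => fun v => ∀ g, A.InD t r (A.act t g v - v)

/-- the unipotent filtration, as a subspace (`mem_D`: `v ∈ D r ↔ InD r v`) -/
def D (A : Loc K σ q) (t : Γ → K) (r : ℕ) : Submodule K A.V := Submodule.span K {v | A.InD t r v}

/-- the Frobenius polynomial `det (1 - Φ T)` on the `r`-th step of the unipotent filtration; for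
`r = 1` this is the Euler factor `det (1 - Φ T ∣ V^I)` -/
noncomputable def P (A : Loc K σ q) (t : Γ → K) (r : ℕ) : K[X] := pol A.Φ (A.D t r)

/-- the vectors fixed by `ρ` -/
def fixed (A : Loc K σ q) : Submodule K A.V where
  carrier := {v | ∀ g, A.ρ g v = v}
  add_mem' := by
    intro a b ha hb g
    rw [map_add, ha g, hb g]
  zero_mem' := fun g => map_zero _
  smul_mem' := by
    intro c a ha g
    rw [map_smul, ha g]

theorem mem_fixed (A : Loc K σ q) (v : A.V) : v ∈ A.fixed ↔ ∀ g, A.ρ g v = v := Iff.rfl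

/-- `ker N^r ∩ V^ρ` -/
def R (A : Loc K σ q) (r : ℕ) : Submodule K A.V := LinearMap.ker (A.N ^ r) ⊓ A.fixed

theorem mem_R (A : Loc K σ q) (r : ℕ) (v : A.V) :
    v ∈ A.R r ↔ (A.N ^ r) v = 0 ∧ ∀ g, A.ρ g v = v := Iff.rfl

theorem N_pow_dim (A : Loc K σ q) : A.N ^ (finrank K A.V) = 0 := by
  have h := LinearMap.aeval_self_charpoly A.N
  rw [IsNilpotent.charpoly_eq_X_pow_finrank A.nil'] at h
  simpa using h

theorem N_fixed (A : Loc K σ q) {v : A.V} (hv : v ∈ A.fixed) : A.N v ∈ A.fixed := by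
  intro g
  rw [← A.commρ', hv g]

theorem Npow_comm (A : Loc K σ q) (g : Γ) (i : ℕ) (v : A.V) :
    (A.N ^ i) (A.ρ g v) = A.ρ g ((A.N ^ i) v) := by
  induction i with
  | zero => rfl
  | succ n ih => rw [pow_succ', Module.End.mul_apply, Module.End.mul_apply, ih, A.commρ']

theorem Npow_Φ (A : Loc K σ q) (i : ℕ) (v : A.V) :
    (A.N ^ i) (A.Φ v) = ((q : K) ^ i) • A.Φ ((A.N ^ i) v) := by
  induction i with
  | zero => simp
  | succ n ih =>
    rw [pow_succ', Module.End.mul_apply, Module.End.mul_apply, ih, map_smul, A.comm', smul_smul,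
      pow_succ]

/-- the unit `u` with `exp (c N) = 1 + c N u` -/
noncomputable def uu (A : Loc K σ q) (c : K) : Module.End K A.V :=
  ∑ i ∈ Finset.range (finrank K A.V), (c ^ i / ((i + 1).factorial : K)) • A.N ^ i

theorem ex_eq (A : Loc K σ q) (c : K) (v : A.V) : A.ex c v = v + c • A.uu c (A.N v) := by
  rw [ex, Finset.sum_range_succ', uu]
  simp only [ap, LinearMap.sum_apply, LinearMap.smul_apply, pow_zero,
    Nat.factorial_zero, Nat.cast_one, div_one, one_smul, Module.End.one_apply, Finset.smul_sum]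
  rw [add_comm]
  congr 1
  apply Finset.sum_congr rfl
  intro i _
  rw [smul_smul, ← Module.End.mul_apply, ← pow_succ]
  congr 1
  rw [pow_succ]
  ring

theorem uu_inj (A : Loc K σ q) (c : K) : Function.Injective (A.uu c) := by
  by_cases hV : finrank K A.V = 0
  · have : Subsingleton A.V := Module.finrank_zero_iff.1 hV
    exact Function.injective_of_subsingleton _
  obtain ⟨n, hn⟩ := Nat.exists_eq_succ_of_ne_zero hV
  have h1 : A.uu c = 1 + A.N * ∑ i ∈ Finset.range n,
      (c ^ (i + 1) / ((i + 2).factorial : K)) • A.N ^ i := by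
    rw [uu, hn, Nat.succ_eq_add_one, Finset.sum_range_succ']
    rw [add_comm, Finset.mul_sum]
    congr 1
    · simp
    · apply Finset.sum_congr rfl
      intro i _
      rw [mul_smul_comm, ← pow_succ']
  have h2 : IsNilpotent (A.N * ∑ i ∈ Finset.range n,
      (c ^ (i + 1) / ((i + 2).factorial : K)) • A.N ^ i) := by
    apply Commute.isNilpotent_mul_right _ A.nil'
    apply Commute.sum_right
    intro i _
    exact (Commute.pow_right (Commute.refl _) _).smul_right _
  have h3 : IsUnit (A.uu c) := by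
    rw [h1]
    exact h2.isUnit_one_add
  exact ((Module.End.isUnit_iff _).1 h3).1

theorem uu_ρ (A : Loc K σ q) (c : K) (g : Γ) (v : A.V) : A.uu c (A.ρ g v) = A.ρ g (A.uu c v) := by
  rw [uu]
  simp only [LinearMap.sum_apply, LinearMap.smul_apply, map_sum, map_smul, Npow_comm]

theorem uu_N (A : Loc K σ q) (c : K) (i : ℕ) (v : A.V) :
    (A.N ^ i) (A.uu c v) = A.uu c ((A.N ^ i) v) := by
  rw [uu]
  simp only [LinearMap.sum_apply, LinearMap.smul_apply, map_sum, map_smul, ← Module.End.mul_apply,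
    ← pow_add]
  apply Finset.sum_congr rfl
  intro j _
  rw [add_comm i j]

theorem pow_N (A : Loc K σ q) (r : ℕ) (v : A.V) : (A.N ^ r) (A.N v) = (A.N ^ (r + 1)) v := by
  rw [← Module.End.mul_apply, ← pow_succ]

theorem uu_fixed (A : Loc K σ q) (c : K) {v : A.V} (hv : v ∈ A.fixed) : A.uu c v ∈ A.fixed := by
  intro g
  rw [← uu_ρ, hv g]

theorem exists_pow (A : Loc K σ q) (g : Γ) : ∃ m, 0 < m ∧ ∀ v, A.ρ (g ^ m) v = v := by
  have := A.finite.to_subtype
  obtain ⟨a, b, hab, h⟩ := Finite.exists_ne_map_eq_of_infinite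
    (fun n : ℕ => (⟨A.ρ (g ^ n), Set.mem_range_self _⟩ : Set.range A.ρ))
  have h' : A.ρ (g ^ a) = A.ρ (g ^ b) := congrArg Subtype.val h
  have key : ∀ a b : ℕ, a < b → A.ρ (g ^ a) = A.ρ (g ^ b) → ∃ m, 0 < m ∧ ∀ v, A.ρ (g ^ m) v = v := by
    intro a b hab h
    refine ⟨b - a, by omega, fun v => ?_⟩
    have e : g ^ (b - a) = (g ^ a)⁻¹ * g ^ b := by
      have : g ^ b = g ^ a * g ^ (b - a) := by rw [← pow_add]; congr 1; omega
      rw [this, inv_mul_cancel_left]
    rw [e, A.mul', ← h, ← A.mul', inv_mul_cancel, A.one']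
  rcases lt_or_gt_of_ne hab with h1 | h1
  · exact key a b h1 h'
  · exact key b a h1 h'.symm

theorem InD_iff [CharZero K] (A : Loc K σ q) {t : Γ → K} (ht : ∀ g h, t (g * h) = t g + t h)
    (hne : ∃ g, t g ≠ 0) (r : ℕ) : ∀ v, A.InD t r v ↔ v ∈ A.R r := by
  have tp : ∀ g (m : ℕ), t (g ^ (m + 1)) = (m + 1 : K) * t g := by
    intro g m
    induction m with
    | zero => simp
    | succ n ih =>
      rw [pow_succ, ht, ih]
      push_cast
      ring
  induction r with
  | zero =>
    intro v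
    rw [mem_R, InD]
    constructor
    · intro hv
      subst hv
      simp
    · intro hv
      simpa using hv.1
  | succ r ih =>
    intro v
    rw [InD]
    constructor
    · intro hv
      obtain ⟨g0, hg0⟩ := hne
      obtain ⟨m, hm, hρ⟩ := A.exists_pow g0
      obtain ⟨m, rfl⟩ := Nat.exists_eq_succ_of_ne_zero hm.ne'
      set h := g0 ^ (m + 1) with hh
      have hth : t h ≠ 0 := by
        rw [hh, tp]
        have : ((m : K) + 1) ≠ 0 := by exact_mod_cast Nat.succ_ne_zero m
        exact mul_ne_zero this hg0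
      have h1 := hv h
      rw [ih, act, ap, hρ, ex_eq, add_sub_cancel_left, mem_R] at h1
      have hN1 : (A.N ^ (r + 1)) v = 0 := by
        have h2 := h1.1
        rw [map_smul, uu_N, pow_N] at h2
        rcases smul_eq_zero.1 h2 with h3 | h3
        · exact absurd h3 hth
        · exact A.uu_inj _ (by rw [h3, map_zero])
      have hNf : A.N v ∈ A.fixed := by
        intro g
        have h2 := h1.2 g
        rw [map_smul] at h2
        have h3 := smul_right_injective _ hth h2
        rw [← uu_ρ] at h3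
        exact A.uu_inj _ h3
      refine ⟨hN1, ?_⟩
      intro g
      have h2 := hv g
      rw [ih, act, ap, ex_eq, map_add] at h2
      have h3 : A.ρ g ((t g) • A.uu (t g) (A.N v)) = (t g) • A.uu (t g) (A.N v) :=
        A.fixed.smul_mem _ (A.uu_fixed _ hNf) g
      rw [h3] at h2
      have h4 : A.ρ g v - v ∈ A.fixed := by
        have h5 : (t g) • A.uu (t g) (A.N v) ∈ A.fixed := A.fixed.smul_mem _ (A.uu_fixed _ hNf)
        have h6 := A.fixed.sub_mem h2.2 h5
        have e : A.ρ g v + (t g) • A.uu (t g) (A.N v) - v - (t g) • A.uu (t g) (A.N v) =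
          A.ρ g v - v := by abel
        rwa [e] at h6
      have h7 : ∀ n : ℕ, A.ρ (g ^ n) v = v + (n : K) • (A.ρ g v - v) := by
        intro n
        induction n with
        | zero => rw [pow_zero, A.one']; simp
        | succ n ihn =>
          rw [pow_succ', A.mul', ihn, map_add, map_smul, h4 g]
          push_cast
          rw [add_smul, one_smul]
          abel
      obtain ⟨n, hn, hρn⟩ := A.exists_pow g
      have h8 := h7 n
      rw [hρn] at h8
      have h9 : (n : K) • (A.ρ g v - v) = 0 := by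
        have := h8
        rw [eq_comm, add_eq_left] at this
        exact this
      rcases smul_eq_zero.1 h9 with h10 | h10
      · exact absurd h10 (by exact_mod_cast hn.ne')
      · exact sub_eq_zero.1 h10
    · intro hv g
      rw [ih]
      have hf : v ∈ A.fixed := hv.2
      have e : A.act t g v - v = (t g) • A.uu (t g) (A.N v) := by
        rw [act, ap, ex_eq, map_add, hf g]
        have h3 : A.ρ g ((t g) • A.uu (t g) (A.N v)) = (t g) • A.uu (t g) (A.N v) :=
          A.fixed.smul_mem _ (A.uu_fixed _ (A.N_fixed hf)) g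
        rw [h3, add_sub_cancel_left]
      rw [e]
      refine ⟨?_, A.fixed.smul_mem _ (A.uu_fixed _ (A.N_fixed hf))⟩
      show (A.N ^ r) _ = 0
      rw [map_smul, uu_N, pow_N, hv.1, map_zero, smul_zero]

theorem D_eq [CharZero K] (A : Loc K σ q) {t : Γ → K} (ht : ∀ g h, t (g * h) = t g + t h)
    (hne : ∃ g, t g ≠ 0) (r : ℕ) : A.D t r = A.R r := by
  rw [D]
  have : {v | A.InD t r v} = (A.R r : Set A.V) := by
    ext v
    exact A.InD_iff ht hne r v
  rw [this, Submodule.span_eq]

theorem mem_D [CharZero K] (A : Loc K σ q) {t : Γ → K} (ht : ∀ g h, t (g * h) = t g + t h)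
    (hne : ∃ g, t g ≠ 0) (r : ℕ) (v : A.V) : v ∈ A.D t r ↔ A.InD t r v := by
  rw [A.D_eq ht hne, A.InD_iff ht hne]

theorem R_stable (A : Loc K σ q) (r : ℕ) : ∀ v ∈ A.R r, A.Φ v ∈ A.R r := by
  intro v hv
  refine ⟨?_, ?_⟩
  · show (A.N ^ r) (A.Φ v) = 0
    rw [Npow_Φ, hv.1, map_zero, smul_zero]
  · intro g
    rw [A.norm', hv.2 (σ g)]

/-! ## Direct sums, Tate twists, tensor products with `H^1(E)` -/

/-- the direct sum -/
noncomputable def sum (A B : Loc K σ q) : Loc K σ q where
  V := A.V × B.V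
  N := A.N.prodMap B.N
  Φ := A.Φ.prodMap B.Φ
  ρ := fun g => (A.ρ g).prodMap (B.ρ g)
  nil := by
    obtain ⟨n, hn⟩ := A.nil
    obtain ⟨m, hm⟩ := B.nil
    refine ⟨n + m, fun v => ?_⟩
    have h : ∀ (k : ℕ) (v : A.V × B.V),
        ((A.N.prodMap B.N) ^ k) v = ((A.N ^ k) v.1, (B.N ^ k) v.2) := by
      intro k
      induction k with
      | zero => intro v; rfl
      | succ k ih =>
        intro v
        rw [pow_succ, pow_succ, pow_succ, Module.End.mul_apply, ih]
        rfl
    rw [ap, h]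
    have h1 : (A.N ^ (n + m)) v.1 = 0 := by
      rw [add_comm, pow_add, Module.End.mul_apply]
      have := hn v.1
      rw [ap] at this
      rw [this, map_zero]
    have h2 : (B.N ^ (n + m)) v.2 = 0 := by
      rw [pow_add, Module.End.mul_apply]
      have := hm v.2
      rw [ap] at this
      rw [this, map_zero]
    rw [h1, h2]
    rfl
  comm := fun v => Prod.ext (A.comm v.1) (B.comm v.2)
  one := fun v => Prod.ext (A.one v.1) (B.one v.2)
  mul := fun g h v => Prod.ext (A.mul g h v.1) (B.mul g h v.2)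
  commρ := fun g v => Prod.ext (A.commρ g v.1) (B.commρ g v.2)
  norm := fun g v => Prod.ext (A.norm g v.1) (B.norm g v.2)
  finite := by
    refine ((A.finite.prod B.finite).image (fun x => x.1.prodMap x.2)).subset ?_
    rintro _ ⟨g, rfl⟩
    exact ⟨(A.ρ g, B.ρ g), ⟨Set.mem_range_self g, Set.mem_range_self g⟩, rfl⟩

/-- the Tate twist by `K(-1)` -/
noncomputable def tw (A : Loc K σ q) : Loc K σ q where
  V := A.V
  N := A.N
  Φ := (q : K) • A.Φ
  ρ := A.ρ
  nil := A.nil
  comm := fun v => by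
    simp only [ap, LinearMap.smul_apply, map_smul]
    rw [A.comm']
  one := A.one
  mul := A.mul
  commρ := A.commρ
  norm := fun g v => by
    simp only [ap, LinearMap.smul_apply, map_smul]
    rw [A.norm']
  finite := A.finite

/-- the monodromy operator of `A ⊗ H^1(E)`: `(v₀, v₁) ↦ (N v₀ + v₁, N v₁)` -/
def stEnd (A : Loc K σ q) : Module.End K (A.V × A.V) where
  toFun := fun v => (ap A.N v.1 + v.2, ap A.N v.2)
  map_add' := fun a b => by
    simp only [ap, Prod.fst_add, Prod.snd_add, map_add, Prod.mk_add_mk]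
    congr 1
    abel
  map_smul' := fun c a => by
    simp only [ap, Prod.smul_fst, Prod.smul_snd, map_smul, RingHom.id_apply, Prod.smul_mk, smul_add]

theorem stEnd_apply (A : Loc K σ q) (v : A.V × A.V) : A.stEnd v = (A.N v.1 + v.2, A.N v.2) := rfl

theorem stN (A : Loc K σ q) (r : ℕ) (v : A.V × A.V) : (A.stEnd ^ (r + 1)) v =
    ((A.N ^ (r + 1)) v.1 + ((r : K) + 1) • (A.N ^ r) v.2, (A.N ^ (r + 1)) v.2) := by
  induction r generalizing v with
  | zero => simp [stEnd_apply]
  | succ n ih =>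
    rw [pow_succ', Module.End.mul_apply, ih, stEnd_apply]
    simp only [pow_succ', Module.End.mul_apply, map_add, map_smul, Prod.mk.injEq, and_true]
    push_cast
    simp only [add_smul, one_smul]
    abel

theorem stΦ_apply (A : Loc K σ q) (v : A.V × A.V) :
    (A.Φ.prodMap ((q : K) • A.Φ)) v = (A.Φ v.1, (q : K) • A.Φ v.2) := rfl

/-- the tensor product `A ⊗ H^1(E)` with the `H^1` of a Tate curve: `H^1(E)` has a basis `e₀, e₁`
with `N e₁ = e₀`, `N e₀ = 0`, `Φ e₀ = e₀`, `Φ e₁ = q e₁` and trivial `ρ`, and `(v₀, v₁)` stands for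
`v₀ ⊗ e₀ + v₁ ⊗ e₁` -/
noncomputable def st (A : Loc K σ q) : Loc K σ q where
  V := A.V × A.V
  N := A.stEnd
  Φ := A.Φ.prodMap ((q : K) • A.Φ)
  ρ := fun g => (A.ρ g).prodMap (A.ρ g)
  nil := by
    obtain ⟨n, hn⟩ := A.nil
    refine ⟨n + 1, fun v => ?_⟩
    have h : ∀ v, (A.N ^ n) v = 0 := hn
    rw [ap, stN, pow_succ', Module.End.mul_apply, Module.End.mul_apply, h, h, map_zero, smul_zero,
      add_zero]
    rfl
  comm := fun v => by
    simp only [ap]
    rw [stΦ_apply, stEnd_apply, stEnd_apply, stΦ_apply]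
    simp only [map_smul]
    rw [A.comm', A.comm', Prod.smul_mk, map_add, smul_add]
  one := fun v => Prod.ext (A.one v.1) (A.one v.2)
  mul := fun g h v => Prod.ext (A.mul g h v.1) (A.mul g h v.2)
  commρ := fun g v => by
    simp only [ap]
    have h1 : ∀ v : A.V × A.V, ((A.ρ g).prodMap (A.ρ g)) v = (A.ρ g v.1, A.ρ g v.2) := fun v => rfl
    rw [h1, h1, stEnd_apply, stEnd_apply]
    simp only
    rw [A.commρ', A.commρ', map_add]
  norm := fun g v => by
    simp only [ap]
    have h1 : ∀ g (v : A.V × A.V), ((A.ρ g).prodMap (A.ρ g)) v = (A.ρ g v.1, A.ρ g v.2) :=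
      fun g v => rfl
    rw [h1, h1, stΦ_apply, stΦ_apply]
    simp only [map_smul]
    rw [A.norm', A.norm']
  finite := by
    refine (A.finite.image (fun x => x.prodMap x)).subset ?_
    rintro _ ⟨g, rfl⟩
    exact ⟨A.ρ g, Set.mem_range_self g, rfl⟩

/-- isomorphic local Galois data -/
def Iso (A B : Loc K σ q) : Prop :=
  ∃ e : A.V → B.V, IsLinearMap K e ∧ Function.Bijective e ∧ (∀ v, e (ap A.N v) = ap B.N (e v)) ∧
    (∀ v, e (ap A.Φ v) = ap B.Φ (e v)) ∧ ∀ g v, e (ap (A.ρ g) v) = ap (B.ρ g) (e v)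

/-- the Frobenius polynomial on `R r` -/
noncomputable def pR (A : Loc K σ q) (r : ℕ) : K[X] := pol A.Φ (A.R r)

theorem pR_iso {A B : Loc K σ q} (h : Iso A B) (r : ℕ) : A.pR r = B.pR r := by
  obtain ⟨e, hl, hb, hN, hΦ, hρ⟩ := h
  let e' : A.V ≃ₗ[K] B.V := LinearEquiv.ofBijective (hl.mk' e) hb
  have he : ∀ v, e' v = e v := fun v => rfl
  refine pol_equiv e' (fun v => hΦ v) (fun v => ?_)
  have h1 : ∀ (n : ℕ) v, e' ((A.N ^ n) v) = (B.N ^ n) (e' v) := by
    intro n
    induction n with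
    | zero => intro v; rfl
    | succ n ih =>
      intro v
      rw [pow_succ, pow_succ, Module.End.mul_apply, Module.End.mul_apply, ih]
      congr 1
      exact hN v
  rw [mem_R, mem_R, ← h1]
  constructor
  · rintro ⟨h2, h3⟩
    refine ⟨by rw [h2, map_zero], fun g => ?_⟩
    have := hρ g v
    rw [ap, h3 g] at this
    exact this.symm
  · rintro ⟨h2, h3⟩
    refine ⟨(LinearEquiv.map_eq_zero_iff e').1 h2, fun g => ?_⟩
    apply e'.injective
    have := hρ g v
    exact this.trans (h3 g)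

theorem pR_sum (A B : Loc K σ q) (r : ℕ) : (A.sum B).pR r = A.pR r * B.pR r := by
  rw [pR, pR, pR, ← pol_prod (A.R_stable r) (B.R_stable r)]
  have h : ∀ (k : ℕ) (v : A.V × B.V),
      ((A.N.prodMap B.N) ^ k) v = ((A.N ^ k) v.1, (B.N ^ k) v.2) := by
    intro k
    induction k with
    | zero => intro v; rfl
    | succ k ih =>
      intro v
      rw [pow_succ, pow_succ, pow_succ, Module.End.mul_apply, ih]
      rfl
  have e : ∀ v : A.V × B.V, v ∈ (A.sum B).R r ↔ v ∈ (A.R r).prod (B.R r) := by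
    intro v
    have h1 : v ∈ (A.sum B).R r ↔ ((A.N.prodMap B.N) ^ r) v = 0 ∧
        ∀ g, ((A.ρ g).prodMap (B.ρ g)) v = v := Iff.rfl
    rw [h1, h]
    constructor
    · rintro ⟨h2, h3⟩
      exact ⟨⟨congrArg Prod.fst h2, fun g => congrArg Prod.fst (h3 g)⟩,
        ⟨congrArg Prod.snd h2, fun g => congrArg Prod.snd (h3 g)⟩⟩
    · rintro ⟨⟨h2, h3⟩, ⟨h4, h5⟩⟩
      exact ⟨Prod.ext h2 h4, fun g => Prod.ext (h3 g) (h5 g)⟩
  exact pol_equiv (V := (A.sum B).V) (Φ := (A.sum B).Φ) (LinearEquiv.refl K (A.V × B.V))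
    (fun v => rfl) e

theorem pR_tw (A : Loc K σ q) (r : ℕ) : A.tw.pR r = (A.pR r).comp (C (q : K) * X) := by
  rw [pR, pR, ← pol_smul (A.R_stable r)]
  rfl

/-- the change of coordinates `(v₀, v₁) ↦ (v₀, N v₀ + c v₁)` -/
noncomputable def shear (A : Loc K σ q) (c : K) (hc : c ≠ 0) : (A.V × A.V) ≃ₗ[K] (A.V × A.V) where
  toFun := fun v => (v.1, A.N v.1 + c • v.2)
  map_add' := fun a b => by
    ext
    · simp
    · simp only [Prod.fst_add, Prod.snd_add, map_add, smul_add]
      abel
  map_smul' := fun a b => by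
    ext <;> simp [smul_comm c a]
  invFun := fun v => (v.1, c⁻¹ • (v.2 - A.N v.1))
  left_inv := fun v => by
    ext <;> simp [smul_smul, inv_mul_cancel₀ hc]
  right_inv := fun v => by
    ext <;> simp [smul_smul, mul_inv_cancel₀ hc]

theorem pR_st [CharZero K] (A : Loc K σ q) (r : ℕ) :
    A.st.pR (r + 1) = A.pR (r + 2) * (A.pR r).comp (C (q : K) * X) := by
  have hc : ((r : K) + 1) ≠ 0 := by exact_mod_cast Nat.succ_ne_zero r
  have s1 : ∀ v ∈ A.R r, ((q : K) • A.Φ) v ∈ A.R r :=
    fun v hv => (A.R r).smul_mem _ (A.R_stable r v hv)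
  rw [pR, pR, pR, ← pol_smul (A.R_stable r), ← pol_prod (A.R_stable (r + 2)) s1]
  have hs : ∀ w : A.V × A.V, shear A _ hc w = (w.1, A.N w.1 + ((r : K) + 1) • w.2) :=
    fun w => rfl
  have H1 : ∀ v : A.V × A.V, shear A _ hc (A.Φ v.1, (q : K) • A.Φ v.2) =
      (A.Φ.prodMap ((q : K) • A.Φ)) (shear A _ hc v) := by
    intro v
    rw [hs, hs, stΦ_apply]
    simp only
    rw [A.comm', map_add, map_smul, smul_add, smul_comm]
  have H2 : ∀ v : A.V × A.V, ((A.stEnd ^ (r + 1)) v = 0 ∧
      ∀ g, (((A.ρ g).prodMap (A.ρ g)) v = v)) ↔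
      shear A _ hc v ∈ (A.R (r + 2)).prod (A.R r) := by
    intro v
    have h3 : (∀ g, ((A.ρ g).prodMap (A.ρ g)) v = v) ↔
        (∀ g, A.ρ g v.1 = v.1) ∧ ∀ g, A.ρ g v.2 = v.2 := by
      constructor
      · intro h
        exact ⟨fun g => congrArg Prod.fst (h g), fun g => congrArg Prod.snd (h g)⟩
      · intro h g
        exact Prod.ext (h.1 g) (h.2 g)
    have h4 : shear A _ hc v ∈ (A.R (r + 2)).prod (A.R r) ↔ v.1 ∈ A.R (r + 2) ∧
        A.N v.1 + ((r : K) + 1) • v.2 ∈ A.R r := Iff.rfl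
    rw [A.stN, h3, h4, mem_R, mem_R]
    obtain ⟨v0, v1⟩ := v
    dsimp only
    have h9 : (((A.N ^ (r + 1)) v0 + ((r : K) + 1) • (A.N ^ r) v1, (A.N ^ (r + 1)) v1) :
        A.V × A.V) = 0 ↔
        ((A.N ^ (r + 2)) v0 = 0 ∧ (A.N ^ r) (A.N v0 + ((r : K) + 1) • v1) = 0) := by
      have e1 : (A.N ^ r) (A.N v0 + ((r : K) + 1) • v1) =
          (A.N ^ (r + 1)) v0 + ((r : K) + 1) • (A.N ^ r) v1 := by
        rw [map_add, map_smul, pow_N]
      rw [e1]
      have e2 : (A.N ^ (r + 2)) v0 = A.N ((A.N ^ (r + 1)) v0) := by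
        rw [← Module.End.mul_apply, ← pow_succ']
      have e3 : (A.N ^ (r + 1)) v1 = A.N ((A.N ^ r) v1) := by
        rw [← Module.End.mul_apply, ← pow_succ']
      rw [Prod.mk_eq_zero]
      constructor
      · rintro ⟨h, h'⟩
        refine ⟨?_, h⟩
        have := congrArg A.N h
        rw [map_add, map_smul, map_zero, ← e2, ← e3, h', smul_zero, add_zero] at this
        exact this
      · rintro ⟨h, h'⟩
        refine ⟨h', ?_⟩
        have := congrArg A.N h'
        rw [map_add, map_smul, map_zero, ← e2, ← e3, h, zero_add] at this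
        exact (smul_eq_zero.1 this).resolve_left hc
    rw [h9]
    constructor
    · rintro ⟨⟨a1, a2⟩, b1, b2⟩
      refine ⟨⟨a1, b1⟩, a2, fun g => ?_⟩
      rw [map_add, map_smul, b2 g, ← A.commρ', b1 g]
    · rintro ⟨⟨a1, b1⟩, a2, b2⟩
      refine ⟨⟨a1, a2⟩, b1, fun g => ?_⟩
      have h11 := b2 g
      rw [map_add, map_smul, ← A.commρ', b1 g] at h11
      exact smul_right_injective _ hc (add_left_cancel h11)
  exact pol_equiv (V := A.st.V) (Φ := A.st.Φ) (shear A _ hc) H1 H2

end Loc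

end Pool.Agent.Q60.LI
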