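import Pool.Agent.Q60.LI.Rep

/-!
# Euler factors of the twists of a motive and compatibility of Weil–Deligne representations
-/

namespace Pool.Agent.Q60.LI

open Polynomial Module

section

variable {W : Type} [Group W] (v : W →* Multiplicative ℤ)

/-- `t` is a nonzero additive character of the inertia group -/
def IsTame {K : Type} [Field K] (t : W → K) : Prop :=
  (∀ g h, val v g = 0 → val v h = 0 → t (g * h) = t g + t h) ∧ ∃ g, val v g = 0 ∧ t g ≠ 0

/-- an open subgroup with an element of positive valuation; these are the Weil groups of the finite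
extensions if `W` is the Weil group of a local field -/
def IsExt [TopologicalSpace W] (U : Subgroup W) : Prop :=
  IsOpen (U : Set W) ∧ ∃ u ∈ U, 0 < val v u

end

section

variable {W : Type} [Group W] {v : W →* Multiplicative ℤ}

theorem IsExt.pow [TopologicalSpace W] [IsTopologicalGroup W] (hI : IsCompact (v.ker : Set W))
    {U : Subgroup W} (hU : IsExt v U) {g : W} (hg : val v g = 0) : ∃ m, 0 < m ∧ g ^ m ∈ U := by
  have : CompactSpace v.ker := isCompact_iff_compactSpace.1 hI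
  have ho : IsOpen ((U.subgroupOf v.ker : Subgroup v.ker) : Set v.ker) :=
    hU.1.preimage continuous_subtype_val
  have hf : Finite (v.ker ⧸ U.subgroupOf v.ker) := Subgroup.quotient_finite_of_isOpen _ ho
  have h1 : (U.subgroupOf v.ker).FiniteIndex := Subgroup.finiteIndex_of_finite_quotient
  obtain ⟨m, hm, _, h2⟩ := Subgroup.exists_pow_mem_of_index_ne_zero h1.index_ne_zero
    (⟨g, (mem_ker_iff v g).2 hg⟩ : v.ker)
  exact ⟨m, hm, h2⟩

namespace Rep

variable {K : Type} [Field K] {q : ℕ}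

theorem P_zero (A : Rep K v q) {t : W → K} {U : Subgroup W} {Φ : W} (h : IsFrob v U Φ) :
    A.P t h 0 = 1 := by
  rw [P, Loc.P, Loc.D]
  have : {x | (A.loc h).InD (fun g => t g.1) 0 x} = {0} := by
    ext x
    rfl
  rw [this, Submodule.span_zero_singleton, pol_bot]

variable [CharZero K]

theorem P_eq [TopologicalSpace W] [IsTopologicalGroup W] (hI : IsCompact (v.ker : Set W))
    (A : Rep K v q) {t : W → K} (ht : IsTame v t) {U : Subgroup W} (hU : IsExt v U) {Φ : W}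
    (h : IsFrob v U Φ) (r : ℕ) : A.P t h r = (A.loc h).pR r := by
  rw [P, Loc.P, Loc.pR, Loc.D_eq]
  · intro a b
    exact ht.1 _ _ ((mem_ker_iff v a.1).1 a.2.2) ((mem_ker_iff v b.1).1 b.2.2)
  · obtain ⟨g, hg, hg'⟩ := ht.2
    obtain ⟨m, hm, hm'⟩ := hU.pow hI hg
    have h0 : ∀ n : ℕ, val v (g ^ n) = 0 := by
      intro n
      induction n with
      | zero => simp [val_one]
      | succ n ih => rw [pow_succ, val_mul, ih, hg, add_zero]
    have h1 : ∀ n : ℕ, t (g ^ (n + 1)) = ((n : K) + 1) * t g := by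
      intro n
      induction n with
      | zero => simp
      | succ n ih =>
        rw [pow_succ, ht.1 _ _ (h0 _) hg, ih]
        push_cast
        ring
    refine ⟨⟨g ^ m, hm', (mem_ker_iff v _).2 (h0 m)⟩, ?_⟩
    obtain ⟨n, rfl⟩ := Nat.exists_eq_succ_of_ne_zero hm.ne'
    show t (g ^ (n + 1)) ≠ 0
    rw [h1]
    have : ((n : K) + 1) ≠ 0 := by exact_mod_cast Nat.succ_ne_zero n
    exact mul_ne_zero this hg'

theorem P_ne [TopologicalSpace W] [IsTopologicalGroup W] (hI : IsCompact (v.ker : Set W))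
    (A : Rep K v q) {t : W → K} (ht : IsTame v t) {U : Subgroup W} (hU : IsExt v U) {Φ : W}
    (h : IsFrob v U Φ) (r : ℕ) (c : K) : (A.P t h r).comp (C c * X) ≠ 0 := by
  intro h0
  have h1 := congrArg (fun p => p.coeff 0) h0
  simp only [coeff_zero] at h1
  have h2 : ((A.P t h r).comp (C c * X)).coeff 0 = (A.P t h r).coeff 0 := by
    simp only [coeff_zero_eq_eval_zero, eval_comp, eval_mul, eval_C, eval_X, mul_zero]
  rw [h2, A.P_eq hI ht hU, Loc.pR, pol_coeff_zero (Loc.R_stable _ _)] at h1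
  exact one_ne_zero h1

variable [Fact (0 < q)]

theorem P_st [TopologicalSpace W] [IsTopologicalGroup W] (hI : IsCompact (v.ker : Set W))
    (A : Rep K v q) {t : W → K} (ht : IsTame v t) {U : Subgroup W} (hU : IsExt v U) {Φ : W}
    (h : IsFrob v U Φ) (r : ℕ) : A.st.P t h (r + 1) = A.P t h (r + 2) *
      (A.P t h r).comp (C ((q ^ (val v Φ).toNat : ℕ) : K) * X) := by
  rw [P_eq hI _ ht hU, P_eq hI _ ht hU, P_eq hI _ ht hU, Loc.pR_iso (A.st_iso h), Loc.pR_st]

end Rep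

variable {ι : Type} {K : ι → Type} [∀ ℓ, Field (K ℓ)] [∀ ℓ, CharZero (K ℓ)] {q : ℕ}
  [Fact (0 < q)]

/-- the `j`-fold tensor product with `H^1(E)` -/
noncomputable def stn (A : ∀ ℓ, Rep (K ℓ) v q) (j : ℕ) (ℓ : ι) : Rep (K ℓ) v q :=
  Rep.st^[j] (A ℓ)

theorem main_rep [TopologicalSpace W] [IsTopologicalGroup W] (hI : IsCompact (v.ker : Set W))
    {t : ∀ ℓ, W → K ℓ} (ht : ∀ ℓ, IsTame v (t ℓ)) {U : Subgroup W} (hU : IsExt v U) {Φ : W}
    (h : IsFrob v U Φ) (k : ℕ) : ∀ A : ∀ ℓ, Rep (K ℓ) v q,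
    (∀ j ≤ k, Rat (fun ℓ => (stn A j ℓ).P (t ℓ) h 1)) ↔
      (∀ r ≤ k + 1, Rat (fun ℓ => (A ℓ).P (t ℓ) h r)) := by
  have hz : ∀ A : ∀ ℓ, Rep (K ℓ) v q, Rat (fun ℓ => (A ℓ).P (t ℓ) h 0) := by
    intro A
    have : (fun ℓ => (A ℓ).P (t ℓ) h 0) = fun ℓ => 1 := funext fun ℓ => (A ℓ).P_zero h
    rw [this]
    exact Rat.one
  have hs : ∀ (A : ∀ ℓ, Rep (K ℓ) v q) (j : ℕ), (fun ℓ => (stn A (j + 1) ℓ).P (t ℓ) h 1) =
      fun ℓ => (stn (fun ℓ => (A ℓ).st) j ℓ).P (t ℓ) h 1 := by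
    intro A j
    funext ℓ
    rw [stn, stn, Function.iterate_succ_apply]
  have up : ∀ (A : ∀ ℓ, Rep (K ℓ) v q) (r : ℕ), Rat (fun ℓ => (A ℓ).P (t ℓ) h (r + 2)) →
      Rat (fun ℓ => (A ℓ).P (t ℓ) h r) → Rat (fun ℓ => ((A ℓ).st).P (t ℓ) h (r + 1)) := by
    intro A r h1 h2
    have : (fun ℓ => ((A ℓ).st).P (t ℓ) h (r + 1)) = fun ℓ => (A ℓ).P (t ℓ) h (r + 2) *
      ((A ℓ).P (t ℓ) h r).comp (C ((q ^ (val v Φ).toNat : ℕ) : K ℓ) * X) :=
      funext fun ℓ => (A ℓ).P_st hI (ht ℓ) hU h r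
    rw [this]
    exact h1.mul (h2.tw _)
  have down : ∀ (A : ∀ ℓ, Rep (K ℓ) v q) (r : ℕ), Rat (fun ℓ => ((A ℓ).st).P (t ℓ) h (r + 1)) →
      Rat (fun ℓ => (A ℓ).P (t ℓ) h r) → Rat (fun ℓ => (A ℓ).P (t ℓ) h (r + 2)) := by
    intro A r h1 h2
    refine Rat.div (h2.tw (q ^ (val v Φ).toNat)) h1
      (fun ℓ => (A ℓ).P_ne hI (ht ℓ) hU h r _) (fun ℓ => ?_)
    rw [(A ℓ).P_st hI (ht ℓ) hU h r, mul_comm]
  induction k with
  | zero =>
    intro A
    constructor
    · intro h1 r hr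
      rcases Nat.eq_zero_or_pos r with h0 | h0
      · subst h0; exact hz A
      · have : r = 1 := by omega
        subst this
        exact h1 0 le_rfl
    · intro h1 j hj
      have : j = 0 := by omega
      subst this
      exact h1 1 (by omega)
  | succ k ih =>
    intro A
    constructor
    · intro h0
      have h1 := (ih A).1 fun j hj => h0 j (by omega)
      have h2 := (ih (fun ℓ => (A ℓ).st)).1 fun j hj => by
        have := h0 (j + 1) (by omega)
        rwa [hs] at this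
      intro r hr
      rcases Nat.lt_or_ge r (k + 2) with h3 | h3
      · exact h1 r (by omega)
      · have : r = k + 2 := by omega
        subst this
        exact down A k (h2 (k + 1) le_rfl) (h1 k (by omega))
    · intro h0
      have h2 : ∀ r ≤ k + 1, Rat (fun ℓ => ((A ℓ).st).P (t ℓ) h r) := by
        intro r hr
        cases r with
        | zero => exact hz _
        | succ r => exact up A r (h0 (r + 2) (by omega)) (h0 r (by omega))
      intro j hj
      cases j with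
      | zero => exact h0 1 (by omega)
      | succ j =>
        rw [hs]
        exact (ih (fun ℓ => (A ℓ).st)).2 h2 j (by omega)

/-- the subgroup generated by `w` and `J` -/
theorem ext_of [TopologicalSpace W] [IsTopologicalGroup W] {J : Subgroup W}
    (hJ : IsOpen (J : Set W)) {w : W} (hw : 0 < val v w) : IsExt v (Subgroup.zpowers w ⊔ J) :=
  ⟨Subgroup.isOpen_mono le_sup_right hJ,
    w, Subgroup.mem_sup_left (Subgroup.mem_zpowers w), hw⟩

theorem val_zpow (w : W) (n : ℤ) : val v (w ^ n) = n * val v w := by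
  rw [val, val, map_zpow, toAdd_zpow, smul_eq_mul]

theorem mem_sup_iff {J : Subgroup W} (hn : J.Normal) {w u : W} :
    u ∈ Subgroup.zpowers w ⊔ J ↔ ∃ n : ℤ, ∃ j ∈ J, u = w ^ n * j := by
  rw [← SetLike.mem_coe, Subgroup.mul_normal, Set.mem_mul]
  constructor
  · rintro ⟨a, ⟨n, rfl⟩, j, hj, rfl⟩
    exact ⟨n, j, hj, rfl⟩
  · rintro ⟨n, j, hj, rfl⟩
    exact ⟨w ^ n, ⟨n, rfl⟩, j, hj, rfl⟩

theorem frob_of {J : Subgroup W} (hn : J.Normal) (hJ : J ≤ v.ker) {w : W} (hw : 0 < val v w) :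
    IsFrob v (Subgroup.zpowers w ⊔ J) w := by
  refine ⟨Subgroup.mem_sup_left (Subgroup.mem_zpowers w), hw, ?_⟩
  intro u hu
  obtain ⟨n, j, hj, rfl⟩ := (mem_sup_iff hn).1 hu
  rw [val_mul, (mem_ker_iff v j).1 (hJ hj), val_zpow, add_zero]
  exact dvd_mul_left _ _

theorem inertia_of {J : Subgroup W} (hn : J.Normal) (hJ : J ≤ v.ker) {w : W} (hw : 0 < val v w)
    {u : W} (hu : u ∈ Subgroup.zpowers w ⊔ J) (h0 : val v u = 0) : u ∈ J := by
  obtain ⟨n, j, hj, rfl⟩ := (mem_sup_iff hn).1 hu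
  rw [val_mul, (mem_ker_iff v j).1 (hJ hj), val_zpow, add_zero] at h0
  rcases mul_eq_zero.1 h0 with h1 | h1
  · subst h1
    simpa using hj
  · exact absurd h1 hw.ne'

omit [Fact (0 < q)] in
theorem char_eq {K : Type} [Field K] [CharZero K] [TopologicalSpace W] [IsTopologicalGroup W]
    (hI : IsCompact (v.ker : Set W)) (A : Rep K v q) {t : W → K} (ht : IsTame v t)
    {J : Subgroup W} (hJo : IsOpen (J : Set W)) (hn : J.Normal) (hJ : J ≤ v.ker)
    (hρ : ∀ g ∈ J, ∀ x, ap (A.ρ g) x = x) {w : W} (hw : 0 < val v w) (r : ℕ) :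
    A.char w r = A.P t (frob_of hn hJ hw) r := by
  rw [A.P_eq hI ht (ext_of hJo hw), Loc.pR, Rep.char]
  have : (A.loc (frob_of hn hJ hw)).R r = LinearMap.ker (A.N ^ r) := by
    rw [Loc.R]
    have h1 : (A.loc (frob_of hn hJ hw)).fixed = ⊤ := by
      rw [eq_top_iff]
      intro x _ g
      exact hρ g.1 (inertia_of hn hJ hw g.2.1 ((mem_ker_iff v g.1).1 g.2.2)) x
    rw [h1, inf_top_eq]
    rfl
  rw [this]
  rfl

end

end Pool.Agent.Q60.LI
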