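import Pool.Agent.Q60.LI.Th

/-!
# Weil–Deligne representations, twists by the Steinberg representation, finite extensions
-/

namespace Pool.Agent.Q60.LI

open Polynomial Module

/-- the valuation of an element of the Weil group (`1` for a geometric Frobenius) -/
def val {W : Type} [Group W] (v : W →* Multiplicative ℤ) (w : W) : ℤ := Multiplicative.toAdd (v w)

section val

variable {W : Type} [Group W] (v : W →* Multiplicative ℤ)

theorem val_mul (g h : W) : val v (g * h) = val v g + val v h := by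
  simp [val]

theorem val_one : val v 1 = 0 := by simp [val]

theorem val_inv (g : W) : val v g⁻¹ = -val v g := by simp [val]

theorem mem_ker_iff (g : W) : g ∈ v.ker ↔ val v g = 0 := by
  rw [MonoidHom.mem_ker, val]
  exact ⟨fun h => by rw [h]; rfl, fun h => h⟩

end val

/-- A Weil–Deligne representation of the Weil group `W` (`ρ` has finite image on the inertia group
`{w | val v w = 0}`, `N` is nilpotent, and `N ρ(w) = q ^ val w ρ(w) N`). -/
structure Rep (K : Type) [Field K] {W : Type} [Group W] (v : W →* Multiplicative ℤ) (q : ℕ) where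
  /-- the space -/
  V : Type
  [acg : AddCommGroup V]
  [mod : Module K V]
  [fin : FiniteDimensional K V]
  /-- the monodromy operator -/
  N : Module.End K V
  /-- the action of the Weil group -/
  ρ : W → Module.End K V
  nil : ∃ n : ℕ, ∀ x, ap (N ^ n) x = 0
  comm : ∀ w x, ap N (ap (ρ w) x) = ((q : K) ^ val v w) • ap (ρ w) (ap N x)
  one : ∀ x, ap (ρ 1) x = x
  mul : ∀ g h x, ap (ρ (g * h)) x = ap (ρ g) (ap (ρ h) x)
  finite : (ρ '' {w | val v w = 0}).Finite

attribute [instance] Rep.acg Rep.mod Rep.fin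

/-- `Φ` is a geometric Frobenius of the finite extension with Weil group `U` -/
def IsFrob {W : Type} [Group W] (v : W →* Multiplicative ℤ) (U : Subgroup W) (Φ : W) : Prop :=
  Φ ∈ U ∧ 0 < val v Φ ∧ ∀ u ∈ U, val v Φ ∣ val v u

/-- conjugation by `Φ` on the inertia group of `U` -/
def conj {W : Type} [Group W] {v : W →* Multiplicative ℤ} {U : Subgroup W} {Φ : W}
    (h : IsFrob v U Φ) (g : ↥(U ⊓ v.ker)) : ↥(U ⊓ v.ker) :=
  ⟨Φ⁻¹ * g.1 * Φ, U.mul_mem (U.mul_mem (U.inv_mem h.1) g.2.1) h.1, by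
    have h1 := (mem_ker_iff v g.1).1 g.2.2
    show Φ⁻¹ * g.1 * Φ ∈ v.ker
    rw [mem_ker_iff, val_mul, val_mul, val_inv, h1]
    ring⟩

namespace Rep

variable {K : Type} [Field K] {W : Type} [Group W] {v : W →* Multiplicative ℤ} {q : ℕ}

/-- the local data over the finite extension with Weil group `U` -/
def loc (A : Rep K v q) {U : Subgroup W} {Φ : W} (h : IsFrob v U Φ) :
    Loc K (conj h) (q ^ (val v Φ).toNat) where
  V := A.V
  N := A.N
  Φ := A.ρ Φ
  ρ := fun g => A.ρ g.1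
  nil := A.nil
  comm := fun x => by
    rw [A.comm]
    congr 1
    push_cast
    rw [← zpow_natCast, Int.toNat_of_nonneg h.2.1.le]
  one := A.one
  mul := fun g h x => A.mul g.1 h.1 x
  commρ := fun g x => by
    rw [A.comm, (mem_ker_iff v g.1).1 g.2.2, zpow_zero, one_smul]
  norm := fun g x => by
    show ap (A.ρ g.1) (ap (A.ρ Φ) x) = ap (A.ρ Φ) (ap (A.ρ (Φ⁻¹ * g.1 * Φ)) x)
    rw [← A.mul, ← A.mul]
    congr 2
    group
  finite := by
    refine A.finite.subset ?_
    rintro _ ⟨g, rfl⟩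
    exact ⟨g.1, (mem_ker_iff v g.1).1 g.2.2, rfl⟩

/-- the Frobenius polynomial `det (1 - Φ T)` on the `r`-th step of the unipotent filtration for the
inertia group of `U`; for `r = 1` this is the Euler factor over the extension with Weil group `U` -/
noncomputable def P (A : Rep K v q) (t : W → K) {U : Subgroup W} {Φ : W} (h : IsFrob v U Φ)
    (r : ℕ) : K[X] := (A.loc h).P (fun g => t g.1) r

/-- `det (1 - w T)` on the kernel of `N ^ r` -/
noncomputable def char (A : Rep K v q) (w : W) (r : ℕ) : K[X] :=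
  pol (A.ρ w) (LinearMap.ker (A.N ^ r))

/-- the monodromy operator of `A ⊗ H^1(E)` -/
def stN (A : Rep K v q) : Module.End K (A.V × A.V) where
  toFun := fun x => (ap A.N x.1 + x.2, ap A.N x.2)
  map_add' := fun a b => by
    simp only [ap, Prod.fst_add, Prod.snd_add, map_add, Prod.mk_add_mk]
    congr 1
    abel
  map_smul' := fun c a => by
    simp only [ap, Prod.smul_fst, Prod.smul_snd, map_smul, RingHom.id_apply, Prod.smul_mk, smul_add]

variable [Fact (0 < q)] [CharZero K]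

theorem q_ne : (q : K) ≠ 0 := by
  have : 0 < q := Fact.out
  exact_mod_cast this.ne'

/-- the tensor product `A ⊗ H^1(E)` with the `H^1` of a Tate curve: `H^1(E)` has a basis `e₀, e₁`
with `N e₁ = e₀`, `N e₀ = 0`, `w e₀ = e₀`, `w e₁ = q ^ val w e₁`, and `(x₀, x₁)` stands for
`x₀ ⊗ e₀ + x₁ ⊗ e₁` -/
def st (A : Rep K v q) : Rep K v q where
  V := A.V × A.V
  N := A.stN
  ρ := fun w => (A.ρ w).prodMap (((q : K) ^ val v w) • A.ρ w)
  nil := by
    obtain ⟨n, hn⟩ := A.nil
    have h : ∀ x, (A.N ^ n) x = 0 := hn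
    have h1 : ∀ (r : ℕ) (x : A.V × A.V), (A.stN ^ (r + 1)) x =
        ((A.N ^ (r + 1)) x.1 + ((r : K) + 1) • (A.N ^ r) x.2, (A.N ^ (r + 1)) x.2) := by
      intro r
      induction r with
      | zero =>
        intro x
        simp only [zero_add, pow_one, Nat.cast_zero, one_smul, pow_zero, Module.End.one_apply]
        rfl
      | succ n ih =>
        intro x
        have h2 : ∀ x : A.V × A.V, A.stN x = (A.N x.1 + x.2, A.N x.2) := fun x => rfl
        rw [pow_succ', Module.End.mul_apply, ih, h2]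
        simp only [pow_succ', Module.End.mul_apply, map_add, map_smul, Prod.mk.injEq, and_true]
        push_cast
        simp only [add_smul, one_smul]
        abel
    refine ⟨n + 1, fun x => ?_⟩
    rw [ap, h1, pow_succ', Module.End.mul_apply, Module.End.mul_apply, h, h, map_zero, smul_zero,
      add_zero]
    rfl
  comm := fun w x => by
    have h1 : ∀ x : A.V × A.V, ap ((A.ρ w).prodMap (((q : K) ^ val v w) • A.ρ w)) x =
        (ap (A.ρ w) x.1, ((q : K) ^ val v w) • ap (A.ρ w) x.2) := fun x => rfl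
    have h2 : ∀ x : A.V × A.V, ap A.stN x = (ap A.N x.1 + x.2, ap A.N x.2) := fun x => rfl
    rw [h1, h1, h2, h2]
    simp only
    have h3 : ∀ (c : K) (y : A.V), ap A.N (c • y) = c • ap A.N y := fun c y => map_smul A.N c y
    have h4 : ∀ (y z : A.V), ap (A.ρ w) (y + z) = ap (A.ρ w) y + ap (A.ρ w) z :=
      fun y z => map_add (A.ρ w) y z
    rw [h3, A.comm, A.comm, h4, Prod.smul_mk, smul_add]
  one := fun x => by
    have h1 : ap ((A.ρ 1).prodMap (((q : K) ^ val v (1 : W)) • A.ρ 1)) x =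
        (ap (A.ρ 1) x.1, ((q : K) ^ val v (1 : W)) • ap (A.ρ 1) x.2) := rfl
    rw [h1, val_one, zpow_zero, one_smul, A.one, A.one]
  mul := fun g h x => by
    have h1 : ∀ w (x : A.V × A.V), ap ((A.ρ w).prodMap (((q : K) ^ val v w) • A.ρ w)) x =
        (ap (A.ρ w) x.1, ((q : K) ^ val v w) • ap (A.ρ w) x.2) := fun w x => rfl
    rw [h1, h1, h1]
    simp only
    have h3 : ∀ (c : K) (y : A.V), ap (A.ρ g) (c • y) = c • ap (A.ρ g) y :=
      fun c y => map_smul (A.ρ g) c y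
    rw [h3, A.mul, A.mul, smul_smul, val_mul, zpow_add₀ q_ne]
  finite := by
    refine (A.finite.image (fun x => x.prodMap x)).subset ?_
    rintro _ ⟨w, hw, rfl⟩
    refine ⟨A.ρ w, ⟨w, hw, rfl⟩, ?_⟩
    have hw' : val v w = 0 := hw
    simp only [hw', zpow_zero, one_smul]

theorem st_iso (A : Rep K v q) {U : Subgroup W} {Φ : W} (h : IsFrob v U Φ) :
    Loc.Iso (A.st.loc h) (A.loc h).st := by
  refine ⟨fun x => x, ⟨fun _ _ => rfl, fun _ _ => rfl⟩, Function.bijective_id, fun x => rfl,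
    fun x => ?_, fun g x => ?_⟩
  · have h1 : ap ((A.ρ Φ).prodMap (((q : K) ^ val v Φ) • A.ρ Φ)) x =
        ap ((A.ρ Φ).prodMap (((q ^ (val v Φ).toNat : ℕ) : K) • A.ρ Φ)) x := by
      congr 2
      congr 1
      push_cast
      rw [← zpow_natCast, Int.toNat_of_nonneg h.2.1.le]
    exact h1
  · have h1 : ap ((A.ρ g.1).prodMap (((q : K) ^ val v g.1) • A.ρ g.1)) x =
        ap ((A.ρ g.1).prodMap (A.ρ g.1)) x := by
      rw [(mem_ker_iff v g.1).1 g.2.2, zpow_zero, one_smul]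
    exact h1

end Rep

section rat

variable {ι : Type} {K : ι → Type} [∀ ℓ, Field (K ℓ)] [∀ ℓ, CharZero (K ℓ)]

/-- the polynomials `P ℓ` have rational coefficients and do not depend on `ℓ` -/
def Rat (P : ∀ ℓ, (K ℓ)[X]) : Prop :=
  ∃ Q : ℚ[X], ∀ ℓ, P ℓ = Q.map (Rat.castHom (K ℓ))

theorem Rat.mul {A B : ∀ ℓ, (K ℓ)[X]} (hA : Rat A) (hB : Rat B) : Rat (fun ℓ => A ℓ * B ℓ) := by
  obtain ⟨a, ha⟩ := hA
  obtain ⟨b, hb⟩ := hB
  exact ⟨a * b, fun ℓ => by rw [Polynomial.map_mul, ← ha, ← hb]⟩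

theorem Rat.one : Rat (fun ℓ => (1 : (K ℓ)[X])) := ⟨1, fun ℓ => by rw [Polynomial.map_one]⟩

theorem Rat.tw {A : ∀ ℓ, (K ℓ)[X]} (hA : Rat A) (q : ℕ) :
    Rat (fun ℓ => (A ℓ).comp (C (q : K ℓ) * X)) := by
  obtain ⟨a, ha⟩ := hA
  refine ⟨a.comp (C (q : ℚ) * X), fun ℓ => ?_⟩
  rw [Polynomial.map_comp, ← ha]
  simp

theorem Rat.div {A B D : ∀ ℓ, (K ℓ)[X]} (hA : Rat A) (hD : Rat D) (h0 : ∀ ℓ, A ℓ ≠ 0)
    (h : ∀ ℓ, A ℓ * B ℓ = D ℓ) : Rat B := by
  obtain ⟨a, ha⟩ := hA
  obtain ⟨d, hd⟩ := hD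
  by_cases hι : Nonempty ι
  · obtain ⟨ℓ₀⟩ := hι
    have h1 : a.map (Rat.castHom (K ℓ₀)) ∣ d.map (Rat.castHom (K ℓ₀)) := by
      rw [← ha, ← hd]
      exact ⟨B ℓ₀, (h ℓ₀).symm⟩
    rw [Polynomial.map_dvd_map'] at h1
    obtain ⟨b, hb⟩ := h1
    refine ⟨b, fun ℓ => ?_⟩
    apply mul_left_cancel₀ (h0 ℓ)
    rw [h, hd, hb, Polynomial.map_mul, ha]
  · exact ⟨0, fun ℓ => (hι ⟨ℓ⟩).elim⟩

end rat

end Pool.Agent.Q60.LI
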