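import Pool.Agent.Q60.LI.Core

/-!
# Products with a Tate curve and independence of `ℓ`
-/

namespace Pool.Agent.Q60.LI

open Polynomial Module

section ind

variable {ι : Type} {K : ι → Type} [∀ ℓ, Field (K ℓ)]

/-- the polynomials `P ℓ` have integral coefficients and do not depend on `ℓ` -/
def Ind (P : ∀ ℓ, (K ℓ)[X]) : Prop :=
  ∃ Q : ℤ[X], ∀ ℓ, P ℓ = Q.map (Int.castRingHom (K ℓ))

theorem Ind.mul {A B : ∀ ℓ, (K ℓ)[X]} (hA : Ind A) (hB : Ind B) : Ind (fun ℓ => A ℓ * B ℓ) := by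
  obtain ⟨a, ha⟩ := hA
  obtain ⟨b, hb⟩ := hB
  exact ⟨a * b, fun ℓ => by rw [Polynomial.map_mul, ← ha, ← hb]⟩

theorem Ind.one : Ind (fun ℓ => (1 : (K ℓ)[X])) := ⟨1, fun ℓ => by rw [Polynomial.map_one]⟩

theorem Ind.tw {A : ∀ ℓ, (K ℓ)[X]} (hA : Ind A) (q : ℕ) :
    Ind (fun ℓ => (A ℓ).comp (C (q : K ℓ) * X)) := by
  obtain ⟨a, ha⟩ := hA
  refine ⟨a.comp (C (q : ℤ) * X), fun ℓ => ?_⟩
  rw [Polynomial.map_comp, ← ha]
  simp

theorem Ind.div [∀ ℓ, CharZero (K ℓ)] {A B D : ∀ ℓ, (K ℓ)[X]} (hA : Ind A) (hD : Ind D)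
    (h0 : ∀ ℓ, (A ℓ).coeff 0 = 1) (h : ∀ ℓ, A ℓ * B ℓ = D ℓ) : Ind B := by
  obtain ⟨a, ha⟩ := hA
  obtain ⟨d, hd⟩ := hD
  by_cases hι : Nonempty ι
  · obtain ⟨ℓ₀⟩ := hι
    have ha0 : a.coeff 0 = 1 := by
      have h1 := h0 ℓ₀
      rw [ha, coeff_map] at h1
      have h2 : ((a.coeff 0 : ℤ) : K ℓ₀) = ((1 : ℤ) : K ℓ₀) := by simpa using h1
      exact_mod_cast h2
    let b : PowerSeries ℤ := PowerSeries.invOfUnit (a : PowerSeries ℤ) 1 * (d : PowerSeries ℤ)
    have hb : (a : PowerSeries ℤ) * b = (d : PowerSeries ℤ) := by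
      rw [← mul_assoc, PowerSeries.mul_invOfUnit, one_mul]
      simp [ha0]
    have key : ∀ ℓ n, (B ℓ).coeff n = ((PowerSeries.coeff n b : ℤ) : K ℓ) := by
      intro ℓ n
      have h1 : ((A ℓ : (K ℓ)[X]) : PowerSeries (K ℓ)) * ((B ℓ : (K ℓ)[X]) : PowerSeries (K ℓ)) =
          ((D ℓ : (K ℓ)[X]) : PowerSeries (K ℓ)) := by
        rw [← Polynomial.coe_mul, h]
      have h2 := congrArg (PowerSeries.map (Int.castRingHom (K ℓ))) hb
      rw [map_mul, ← Polynomial.polynomial_map_coe, ← Polynomial.polynomial_map_coe, ← ha,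
        ← hd, ← h1] at h2
      have h3 : ((A ℓ : (K ℓ)[X]) : PowerSeries (K ℓ)) ≠ 0 := by
        intro h4
        have h5 := congrArg (PowerSeries.coeff 0) h4
        rw [Polynomial.coeff_coe, h0, map_zero] at h5
        exact one_ne_zero h5
      have h4 := mul_left_cancel₀ h3 h2
      have h5 := congrArg (PowerSeries.coeff n) h4
      rw [PowerSeries.coeff_map, Polynomial.coeff_coe] at h5
      rw [← h5]
      rfl
    refine ⟨PowerSeries.trunc ((B ℓ₀).natDegree + 1) b, fun ℓ => ?_⟩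
    ext n
    rw [coeff_map, PowerSeries.coeff_trunc]
    split_ifs with hn
    · rw [key]
      rfl
    · rw [map_zero, key]
      have h6 : (B ℓ₀).coeff n = 0 := coeff_eq_zero_of_natDegree_lt (by omega)
      rw [key] at h6
      have h7 : (PowerSeries.coeff n b : ℤ) = 0 := by exact_mod_cast h6
      rw [h7, Int.cast_zero]
  · exact ⟨0, fun ℓ => (hι ⟨ℓ⟩).elim⟩

end ind

/-- A class of varieties closed under `X ↦ X × E`, with the local Galois data at a fixed place of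
its cohomology groups `H ℓ j X` for all `ℓ` in `ι` and all degrees `j`. -/
structure Theory (ι : Type) (K : ι → Type) [∀ ℓ, Field (K ℓ)] {Γ : Type} [Group Γ] (σ : Γ → Γ)
    (q : ℕ) where
  /-- the varieties -/
  Var : Type
  /-- the product `X × E` -/
  mulE : Var → Var
  /-- the tame character of the inertia group -/
  t : (ℓ : ι) → Γ → K ℓ
  t_mul : ∀ ℓ g h, t ℓ (g * h) = t ℓ g + t ℓ h
  t_ne : ∀ ℓ, ∃ g, t ℓ g ≠ 0
  /-- cohomology -/
  H : (ℓ : ι) → ℤ → Var → Loc (K ℓ) σ q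
  inj : ∀ ℓ j X, Function.Injective (ap (H ℓ j X).Φ)
  kunneth : ∀ ℓ j X,
    Loc.Iso (H ℓ j (mulE X)) (((H ℓ j X).sum (H ℓ (j - 1) X).st).sum (H ℓ (j - 2) X).tw)

namespace Theory

variable {ι : Type} {K : ι → Type} [∀ ℓ, Field (K ℓ)] {Γ : Type} [Group Γ] {σ : Γ → Γ} {q : ℕ}

/-- the Frobenius polynomial `det (1 - Φ T)` on the `r`-th step of the unipotent filtration of
`H^j(X)` -/
noncomputable def P (T : Theory ι K σ q) (X : T.Var) (j : ℤ) (r : ℕ) (ℓ : ι) : (K ℓ)[X] :=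
  (T.H ℓ j X).P (T.t ℓ) r

/-- the dimension of the `r`-th step of the unipotent filtration of `H^j(X)` -/
noncomputable def dim (T : Theory ι K σ q) (X : T.Var) (j : ℤ) (r : ℕ) (ℓ : ι) : ℕ :=
  finrank (K ℓ) ((T.H ℓ j X).D (T.t ℓ) r)

/-- the Frobenius polynomials on the `r`-th steps of the unipotent filtrations of all `H^j(X)` are
integral and independent of `ℓ` -/
def Good (T : Theory ι K σ q) (r : ℕ) (X : T.Var) : Prop := ∀ j : ℤ, Ind (T.P X j r)

theorem good_zero (T : Theory ι K σ q) (X : T.Var) : T.Good 0 X := by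
  intro j
  have : T.P X j 0 = fun ℓ => 1 := by
    funext ℓ
    rw [P, Loc.P, Loc.D]
    have : {v | (T.H ℓ j X).InD (T.t ℓ) 0 v} = {0} := by
      ext v
      rfl
    rw [this, Submodule.span_zero_singleton, pol_bot]
  rw [this]
  exact Ind.one

variable [∀ ℓ, CharZero (K ℓ)]

theorem P_eq (T : Theory ι K σ q) (ℓ : ι) (j : ℤ) (X : T.Var) (r : ℕ) :
    T.P X j r ℓ = (T.H ℓ j X).pR r := by
  rw [P, Loc.P, Loc.D_eq _ (T.t_mul ℓ) (T.t_ne ℓ), Loc.pR]

theorem P_coeff_zero (T : Theory ι K σ q) (ℓ : ι) (j : ℤ) (X : T.Var) (r : ℕ) :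
    (T.P X j r ℓ).coeff 0 = 1 := by
  rw [P_eq, Loc.pR, pol_coeff_zero (Loc.R_stable _ _)]

theorem P_kun (T : Theory ι K σ q) (ℓ : ι) (j : ℤ) (X : T.Var) (r : ℕ) :
    T.P (T.mulE X) j (r + 1) ℓ = T.P X j (r + 1) ℓ *
      (T.P X (j - 1) (r + 2) ℓ *
        (T.P X (j - 1) r ℓ).comp (C (q : K ℓ) * Polynomial.X)) *
      (T.P X (j - 2) (r + 1) ℓ).comp (C (q : K ℓ) * Polynomial.X) := by
  rw [P_eq, P_eq, P_eq, P_eq, P_eq, Loc.pR_iso (T.kunneth ℓ j X), Loc.pR_sum, Loc.pR_sum,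
    Loc.pR_st, Loc.pR_tw]

theorem good_mulE (T : Theory ι K σ q) {X : T.Var} {r : ℕ} (h1 : T.Good (r + 1) X)
    (h2 : T.Good (r + 2) X) (h0 : T.Good r X) : T.Good (r + 1) (T.mulE X) := by
  intro j
  have : T.P (T.mulE X) j (r + 1) = _ := funext fun ℓ => T.P_kun ℓ j X r
  rw [this]
  exact ((h1 j).mul ((h2 (j - 1)).mul ((h0 (j - 1)).tw q))).mul ((h1 (j - 2)).tw q)

theorem good_of_mulE (T : Theory ι K σ q) {X : T.Var} {r : ℕ} (h1 : T.Good (r + 1) X)
    (h : T.Good (r + 1) (T.mulE X)) (h0 : T.Good r X) : T.Good (r + 2) X := by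
  intro j
  refine Ind.div (A := fun ℓ => T.P X (j + 1) (r + 1) ℓ *
      (T.P X j r ℓ).comp (C (q : K ℓ) * Polynomial.X) *
      (T.P X (j - 1) (r + 1) ℓ).comp (C (q : K ℓ) * Polynomial.X))
    (((h1 (j + 1)).mul ((h0 j).tw q)).mul ((h1 (j - 1)).tw q)) (h (j + 1)) ?_ ?_
  · intro ℓ
    simp only [coeff_zero_eq_eval_zero, eval_comp, eval_mul, eval_C, eval_X,
      mul_zero]
    simp only [← coeff_zero_eq_eval_zero, P_coeff_zero, mul_one]
  · intro ℓ
    have e1 : j + 1 - 1 = j := by ring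
    have e2 : j + 1 - 2 = j - 1 := by ring
    rw [T.P_kun ℓ (j + 1) X r, e1, e2]
    ring

theorem main (T : Theory ι K σ q) (k : ℕ) : ∀ X : T.Var,
    (∀ t ≤ k, T.Good 1 (T.mulE^[t] X)) ↔ (∀ r ≤ k + 1, T.Good r X) := by
  induction k with
  | zero =>
    intro X
    constructor
    · intro h r hr
      rcases Nat.eq_zero_or_pos r with h0 | h0
      · subst h0; exact T.good_zero X
      · have : r = 1 := by omega
        subst this
        exact h 0 le_rfl
    · intro h t ht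
      have : t = 0 := by omega
      subst this
      exact h 1 (by omega)
  | succ k ih =>
    intro X
    constructor
    · intro h
      have h1 : ∀ r ≤ k + 1, T.Good r X := (ih X).1 fun t ht => h t (by omega)
      have h2 : ∀ r ≤ k + 1, T.Good r (T.mulE X) := (ih (T.mulE X)).1 fun t ht => by
        have := h (t + 1) (by omega)
        rwa [Function.iterate_succ_apply] at this
      intro r hr
      rcases Nat.lt_or_ge r (k + 2) with h3 | h3
      · exact h1 r (by omega)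
      · have : r = k + 2 := by omega
        subst this
        exact T.good_of_mulE (h1 (k + 1) le_rfl) (h2 (k + 1) le_rfl) (h1 k (by omega))
    · intro h
      have h2 : ∀ r ≤ k + 1, T.Good r (T.mulE X) := by
        intro r hr
        cases r with
        | zero => exact T.good_zero _
        | succ r => exact T.good_mulE (h (r + 1) (by omega)) (h (r + 2) (by omega)) (h r (by omega))
      intro t ht
      cases t with
      | zero => exact h 1 (by omega)
      | succ t =>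
        rw [Function.iterate_succ_apply]
        exact (ih (T.mulE X)).2 h2 t (by omega)

theorem natDegree_P (T : Theory ι K σ q) (ℓ : ι) (j : ℤ) (X : T.Var) (r : ℕ) :
    (T.P X j r ℓ).natDegree = T.dim X j r ℓ := by
  have e := Loc.D_eq (T.H ℓ j X) (T.t_mul ℓ) (T.t_ne ℓ) r
  rw [P_eq, Loc.pR, pol_of (Loc.R_stable _ _), dim, e, reverse_natDegree]
  rw [LinearMap.charpoly_natDegree]
  have h1 : (LinearMap.charpoly ((T.H ℓ j X).Φ.restrict ((T.H ℓ j X).R_stable r))).coeff 0 ≠ 0 := by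
    intro h
    have h2 := LinearMap.det_eq_sign_charpoly_coeff
      ((T.H ℓ j X).Φ.restrict ((T.H ℓ j X).R_stable r))
    rw [h, mul_zero] at h2
    have h3 : Function.Injective ((T.H ℓ j X).Φ.restrict ((T.H ℓ j X).R_stable r)) := by
      intro a b hab
      apply Subtype.ext
      apply T.inj ℓ j X
      exact congrArg Subtype.val hab
    have h4 : LinearMap.ker ((T.H ℓ j X).Φ.restrict ((T.H ℓ j X).R_stable r)) = ⊥ :=
      LinearMap.ker_eq_bot.2 h3
    have h5 := LinearMap.bot_lt_ker_of_det_eq_zero h2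
    rw [h4] at h5
    exact lt_irrefl _ h5
  rw [natTrailingDegree_eq_zero.2 (Or.inr h1)]
  rfl

theorem dims (T : Theory ι K σ q) {X : T.Var} {r : ℕ} (h : T.Good r X) (j : ℤ) (ℓ ℓ' : ι) :
    T.dim X j r ℓ = T.dim X j r ℓ' := by
  obtain ⟨Q, hQ⟩ := h j
  rw [← natDegree_P, ← natDegree_P, hQ ℓ, hQ ℓ', natDegree_map_eq_of_injective,
    natDegree_map_eq_of_injective]
  · exact Int.cast_injective
  · exact Int.cast_injective

end Theory

end Pool.Agent.Q60.LI
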